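import Mathlib
import Pool.Agent.H892.ZL.Stm2

/-!
# Lines on the quadrics of a net: the permutation of the base points
-/

set_option autoImplicit false

namespace Pool.Agent.H157.ZL

open Pool.Agent.H892.ZL

open MvPolynomial Matrix

theorem Bf_plu (x y z w : Fin 4 → ℂ) :
    Bf (plu x y) (plu z w) = (Matrix.of ![x, y, z, w]).det := by
  simp [Bf, plu, Matrix.det_succ_row_zero, Fin.sum_univ_succ, Fin.succAbove, Matrix.submatrix]
  ring

theorem brk_eq (P : Fin 8 → Fin 4 → ℂ) (i j k l : Fin 8) :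
    brk P i j k l = Bf (plu (P i) (P j)) (plu (P k) (P l)) := (Bf_plu _ _ _ _).symm

theorem plu_swap (x y : Fin 4 → ℂ) : plu y x = - plu x y := by
  ext i
  fin_cases i <;> simp [plu] <;> ring

theorem Bf_smul (a b : ℂ) (u v : Fin 6 → ℂ) : Bf (a • u) (b • v) = a * b * Bf u v := by
  simp [Bf]
  ring

theorem eval_Gp (v : Fin 6 → ℂ) : eval v Gp = v 0 * v 5 - v 1 * v 4 + v 2 * v 3 := by
  simp [Gp]

theorem Bf_polar (u v : Fin 6 → ℂ) :
    Bf u v = eval (u + v) Gp - eval u Gp - eval v Gp := by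
  rw [eval_Gp, eval_Gp, eval_Gp]
  simp only [Bf, Pi.add_apply]
  ring

theorem Bf_T {T : Matrix (Fin 6) (Fin 6) ℂ} {c' : ℂ}
    (h : ∀ v, eval (T *ᵥ v) Gp = c' * eval v Gp) (u v : Fin 6 → ℂ) :
    Bf (T *ᵥ u) (T *ᵥ v) = c' * Bf u v := by
  rw [Bf_polar, Bf_polar, ← Matrix.mulVec_add, h, h, h]
  ring

theorem brk_rep1 (P : Fin 8 → Fin 4 → ℂ) (i j k : Fin 8) : brk P i j i k = 0 := by
  rw [brk_eq]
  simp [Bf, plu]
  ring

theorem brk_rep2 (P : Fin 8 → Fin 4 → ℂ) (i j k : Fin 8) : brk P i j j k = 0 := by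
  rw [brk_eq]
  simp [Bf, plu]
  ring

theorem brk_swap12 (P : Fin 8 → Fin 4 → ℂ) (i j k l : Fin 8) : brk P j i k l = - brk P i j k l := by
  rw [brk_eq, brk_eq]
  simp [Bf, plu]
  ring

theorem brk_swap23 (P : Fin 8 → Fin 4 → ℂ) (i j k l : Fin 8) : brk P i k j l = - brk P i j k l := by
  rw [brk_eq, brk_eq]
  simp [Bf, plu]
  ring

theorem ex_two (i j : Fin 8) : ∃ k l : Fin 8, i ≠ k ∧ i ≠ l ∧ j ≠ k ∧ j ≠ l ∧ k ≠ l := by
  revert i j
  decide

theorem ex_four (i j k l : Fin 8) : ∃ m : Fin 8, i ≠ m ∧ j ≠ m ∧ k ≠ m ∧ l ≠ m := by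
  by_contra h
  push Not at h
  have hsub : (Finset.univ : Finset (Fin 8)) ⊆ {i, j, k, l} := by
    intro m _
    simp only [Finset.mem_insert, Finset.mem_singleton]
    by_contra hm
    push Not at hm
    exact hm.2.2.2 (h m (Ne.symm hm.1) (Ne.symm hm.2.1) (Ne.symm hm.2.2.1)).symm
  have hc := Finset.card_le_card hsub
  have h4 : ({i, j, k, l} : Finset (Fin 8)).card ≤ 4 := Finset.card_le_four
  simp at hc
  omega

theorem pair_eq {a b c d : Fin 8} (h : ({a, b} : Finset (Fin 8)) = {c, d}) :
    (a = c ∧ b = d) ∨ (a = d ∧ b = c) := by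
  revert a b c d
  decide

theorem t_PAIRS (h1 : S_STAR) : S_PAIRS := by
  intro P P' T c' hT hc' hG hP hP' H
  choose! K L t hKL hTt using H
  -- symmetric choice
  let K1 : Fin 8 → Fin 8 → Fin 8 := fun i j => if i < j then K i j else K j i
  let L1 : Fin 8 → Fin 8 → Fin 8 := fun i j => if i < j then L i j else L j i
  let t1 : Fin 8 → Fin 8 → ℂ := fun i j => if i < j then t i j else - t j i
  have hsymK : ∀ i j, i ≠ j → K1 i j = K1 j i := by
    intro i j hij
    rcases lt_or_gt_of_ne hij with h | h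
    · simp only [K1, if_pos h, if_neg (not_lt.2 h.le)]
    · simp only [K1, if_pos h, if_neg (not_lt.2 h.le)]
  have hsymL : ∀ i j, i ≠ j → L1 i j = L1 j i := by
    intro i j hij
    rcases lt_or_gt_of_ne hij with h | h
    · simp only [L1, if_pos h, if_neg (not_lt.2 h.le)]
    · simp only [L1, if_pos h, if_neg (not_lt.2 h.le)]
  have hKL1 : ∀ i j, i ≠ j → K1 i j ≠ L1 i j := by
    intro i j hij
    rcases lt_or_gt_of_ne hij with h | h
    · simp only [K1, L1, if_pos h]
      exact hKL i j hij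
    · simp only [K1, L1, if_neg (not_lt.2 h.le)]
      exact hKL j i hij.symm
  have hT1 : ∀ i j, i ≠ j → T *ᵥ plu (P i) (P j) = t1 i j • plu (P' (K1 i j)) (P' (L1 i j)) := by
    intro i j hij
    rcases lt_or_gt_of_ne hij with h | h
    · simp only [K1, L1, t1, if_pos h]
      exact hTt i j hij
    · simp only [K1, L1, t1, if_neg (not_lt.2 h.le)]
      rw [plu_swap (P j) (P i), Matrix.mulVec_neg, hTt j i hij.symm, neg_smul]
  have hB : ∀ i j k l, i ≠ j → k ≠ l →
      t1 i j * t1 k l * brk P' (K1 i j) (L1 i j) (K1 k l) (L1 k l) = c' * brk P i j k l := by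
    intro i j k l hij hkl
    rw [brk_eq, brk_eq, ← Bf_T hG, hT1 i j hij, hT1 k l hkl, Bf_smul]
  -- the images of meeting lines meet
  have hzero : ∀ i j k l, i ≠ j → k ≠ l → brk P i j k l = 0 →
      ({K1 i j, L1 i j} ∩ {K1 k l, L1 k l} : Finset (Fin 8)).Nonempty := by
    intro i j k l hij hkl h0
    have ht : ∀ i j, i ≠ j → t1 i j ≠ 0 := by
      intro i j hij h0
      obtain ⟨k, l, h1, h2, h3, h4, h5⟩ := ex_two i j
      have := hB i j k l hij h5
      rw [h0] at this
      simp only [zero_mul] at this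
      exact mul_ne_zero hc' (hP i j k l hij h1 h2 h3 h4 h5) this.symm
    have h2 := hB i j k l hij hkl
    rw [h0, mul_zero] at h2
    have h3 : brk P' (K1 i j) (L1 i j) (K1 k l) (L1 k l) = 0 := by
      rcases mul_eq_zero.1 h2 with h | h
      · exact absurd h (mul_ne_zero (ht i j hij) (ht k l hkl))
      · exact h
    by_contra hne
    rw [Finset.not_nonempty_iff_eq_empty] at hne
    have hdis : Disjoint ({K1 i j, L1 i j} : Finset (Fin 8)) {K1 k l, L1 k l} :=
      Finset.disjoint_iff_inter_eq_empty.2 hne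
    rw [Finset.disjoint_left] at hdis
    have a1 := hdis (Finset.mem_insert_self (K1 i j) {L1 i j})
    have a2 := hdis (Finset.mem_insert_of_mem (Finset.mem_singleton_self (L1 i j)) :
      L1 i j ∈ ({K1 i j, L1 i j} : Finset (Fin 8)))
    simp only [Finset.mem_insert, Finset.mem_singleton, not_or] at a1 a2
    exact hP' _ _ _ _ (hKL1 i j hij) a1.1 a1.2 a2.1 a2.2 (hKL1 k l hkl) h3
  obtain ⟨σ, hσ⟩ := h1 (fun i j => if i = j then {i} else {K1 i j, L1 i j})
    (by
      intro i j hij
      simp only [if_neg hij]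
      exact Finset.card_pair (hKL1 i j hij))
    (by
      intro i j
      by_cases hij : i = j
      · subst hij
        rfl
      · simp only [if_neg hij, if_neg (Ne.symm hij), hsymK i j hij, hsymL i j hij])
    (by
      -- injectivity
      intro i j k l hij hkl he
      simp only [if_neg hij, if_neg hkl] at he
      have key : ∀ k l : Fin 8, k ≠ l → ({K1 i j, L1 i j} : Finset (Fin 8)) = {K1 k l, L1 k l} →
          i ≠ l → j ≠ l → False := by
        intro k l hkl he hil hjl
        obtain ⟨m, hm1, hm2, hm3, hm4⟩ := ex_four i j k l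
        have e1 := hB i j l m hij hm4
        have e2 := hB k l l m hkl hm4
        rw [brk_rep2, mul_zero] at e2
        have hne : c' * brk P i j l m ≠ 0 := mul_ne_zero hc' (hP i j l m hij hil hm1 hjl hm2 hm4)
        have e1' := e1
        rw [← e1] at hne
        have n1 := left_ne_zero_of_mul hne
        have n2 := right_ne_zero_of_mul hne
        have ntlm := right_ne_zero_of_mul n1
        have ntkl : t1 k l ≠ 0 := by
          intro h0
          obtain ⟨a, b, h1, h2, h3, h4, h5⟩ := ex_two k l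
          have := hB k l a b hkl h5
          rw [h0] at this
          simp only [zero_mul] at this
          exact mul_ne_zero hc' (hP k l a b hkl h1 h2 h3 h4 h5) this.symm
        have n3 : brk P' (K1 k l) (L1 k l) (K1 l m) (L1 l m) = 0 := by
          rcases mul_eq_zero.1 e2 with h | h
          · exact absurd h (mul_ne_zero ntkl ntlm)
          · exact h
        rcases pair_eq he with ⟨a, b⟩ | ⟨a, b⟩
        · rw [a, b] at n2
          exact n2 n3
        · rw [a, b, brk_swap12] at n2
          exact n2 (by rw [n3, neg_zero])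
      by_cases hl : i = l ∨ j = l
      · by_cases hk : i = k ∨ j = k
        · rcases hl with hl | hl <;> rcases hk with hk | hk
          · exact absurd (hk.symm.trans hl) hkl
          · exact Or.inr ⟨hl, hk⟩
          · exact Or.inl ⟨hk, hl⟩
          · exact absurd (hk.symm.trans hl) hkl
        · push Not at hk
          exfalso
          refine key l k hkl.symm ?_ hk.1 hk.2
          rw [he, hsymK k l hkl, hsymL k l hkl]
      · push Not at hl
        exact (key k l hkl he hl.1 hl.2).elim)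
    (by
      intro i j k hij hik
      simp only [if_neg hij, if_neg hik]
      exact hzero i j i k hij hik (brk_rep1 P i j k))
  refine ⟨σ, ?_⟩
  have hc : ∀ i j, i ≠ j → ∃ c : ℂ, T *ᵥ plu (P i) (P j) = c • plu (P' (σ i)) (P' (σ j)) := by
    intro i j hij
    have h := hσ i j hij
    simp only [if_neg hij] at h
    rcases pair_eq h with ⟨a, b⟩ | ⟨a, b⟩
    · refine ⟨t1 i j, ?_⟩
      rw [hT1 i j hij, a, b]
    · refine ⟨- t1 i j, ?_⟩
      rw [hT1 i j hij, a, b, plu_swap (P' (σ i)) (P' (σ j)), smul_neg, neg_smul]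
  choose! c hc using hc
  have hC : ∀ i j k l, i ≠ j → k ≠ l →
      c i j * c k l * brk P' (σ i) (σ j) (σ k) (σ l) = c' * brk P i j k l := by
    intro i j k l hij hkl
    rw [brk_eq, brk_eq, ← Bf_T hG, hc i j hij, hc k l hkl, Bf_smul]
  have hrel : ∀ i j k l : Fin 8, i ≠ j → i ≠ k → i ≠ l → j ≠ k → j ≠ l → k ≠ l →
      c i j * c k l = c i k * c j l := by
    intro i j k l hij hik hil hjk hjl hkl
    have e1 := hC i j k l hij hkl
    have e2 := hC i k j l hik hjl
    rw [brk_swap23 P' (σ i) (σ j) (σ k) (σ l), brk_swap23 P i j k l] at e2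
    have hne : c' * brk P i j k l ≠ 0 := mul_ne_zero hc' (hP i j k l hij hik hil hjk hjl hkl)
    have hne' : brk P' (σ i) (σ j) (σ k) (σ l) ≠ 0 := by
      rw [← e1] at hne
      exact right_ne_zero_of_mul hne
    apply mul_right_cancel₀ hne'
    rw [e1]
    have e2' : c i k * c j l * brk P' (σ i) (σ j) (σ k) (σ l) = c' * brk P i j k l := by
      have : -(c i k * c j l * brk P' (σ i) (σ j) (σ k) (σ l)) = -(c' * brk P i j k l) := by
        rw [← mul_neg, e2, mul_neg]
      exact neg_injective this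
    rw [e2']
  intro i j k l m n hij hik hil him hin hjk hjl hjm hjn hkl hkm hkn hlm hln hmn
  have a1 := hC i j k l hij hkl
  have a2 := hC i j m n hij hmn
  have a3 := hC i j k m hij hkm
  have a4 := hC i j l n hij hln
  have a5 := hrel k l m n hkl hkm hkn hlm hln hmn
  apply mul_left_cancel₀ (mul_ne_zero hc' hc')
  calc c' * c' * (brk P i j k l * brk P i j m n *
        (brk P' (σ i) (σ j) (σ k) (σ m) * brk P' (σ i) (σ j) (σ l) (σ n)))
      = (c' * brk P i j k l) * (c' * brk P i j m n) *
        (brk P' (σ i) (σ j) (σ k) (σ m) * brk P' (σ i) (σ j) (σ l) (σ n)) := by ring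
    _ = c i j * c i j * (c k l * c m n) *
        (brk P' (σ i) (σ j) (σ k) (σ l) * brk P' (σ i) (σ j) (σ m) (σ n)) *
        (brk P' (σ i) (σ j) (σ k) (σ m) * brk P' (σ i) (σ j) (σ l) (σ n)) := by
          rw [← a1, ← a2]
          ring
    _ = (c' * brk P i j k m) * (c' * brk P i j l n) *
        (brk P' (σ i) (σ j) (σ k) (σ l) * brk P' (σ i) (σ j) (σ m) (σ n)) := by
          rw [a5, ← a3, ← a4]
          ring
    _ = c' * c' * (brk P i j k m * brk P i j l n *
        (brk P' (σ i) (σ j) (σ k) (σ l) * brk P' (σ i) (σ j) (σ m) (σ n))) := by ring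

end Pool.Agent.H157.ZL
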